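import Pool.Agent.Y491.GP.Final

/-!
# The golden partition conjecture: posets with an element with many incomparable elements

(1) There is an absolute constant `δ > 0` such that every pair `a`, `b` of a finite poset with
`P(a before b)` and `P(b before a)` at least `(5 + √5) / (15 + √5) - δ = 0.4198... - δ` can serve as
the first pair in the golden partition conjecture.

(2) There is an absolute constant `K` such that the golden partition conjecture holds for all finite
posets in which some element is incomparable to at least `K` other elements.  So the conjecture is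
reduced to `K`-thin posets.

Proof.  If every poset which is not a chain has balance constant at least `β`, then a first pair with
`P(u before v) ≤ 1 / (2 - β)` and a best second pair give
`e(P₁) + e(P₂) ≤ (2 - β) P(u before v) e(P) ≤ e(P)`.  The theorem `BeyondBFT` for MP_33fb9b_co says
that some `β > (5 - √5) / 10` is admissible, and the theorem `ManyIncomparable` there gives a pair
with both probabilities at least `0.42 > (5 + √5) / (15 + √5)`.
-/

set_option autoImplicit false

namespace Pool.Agent.Results.MP_480c30_co.ThickPosets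

theorem result :
    (∃ δ : ℝ, 0 < δ ∧ ∀ (α : Type) [Fintype α] [PartialOrder α] (a b : α),
      ((5 + √5) / (15 + √5) - δ) *
          ({f : α ≃ Fin (Fintype.card α) | StrictMono (f : α → Fin (Fintype.card α))}.ncard : ℝ) ≤
        ({f : α ≃ Fin (Fintype.card α) |
          StrictMono (f : α → Fin (Fintype.card α)) ∧ f a < f b}.ncard : ℝ) →
      ((5 + √5) / (15 + √5) - δ) *
          ({f : α ≃ Fin (Fintype.card α) | StrictMono (f : α → Fin (Fintype.card α))}.ncard : ℝ) ≤
        ({f : α ≃ Fin (Fintype.card α) |
          StrictMono (f : α → Fin (Fintype.card α)) ∧ f b < f a}.ncard : ℝ) →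
      ¬ a ≤ b ∧ ¬ b ≤ a ∧
        ∀ u v : α, ((u = a ∧ v = b) ∨ (u = b ∧ v = a)) →
          ∃ c d : α, c ≠ d ∧
            ∀ w z : α, ((w = c ∧ z = d) ∨ (w = d ∧ z = c)) →
              {f : α ≃ Fin (Fintype.card α) |
                  StrictMono (f : α → Fin (Fintype.card α)) ∧ f u < f v}.ncard
                + {f : α ≃ Fin (Fintype.card α) |
                  StrictMono (f : α → Fin (Fintype.card α)) ∧ f u < f v ∧ f w < f z}.ncard
                ≤ {f : α ≃ Fin (Fintype.card α) |
                  StrictMono (f : α → Fin (Fintype.card α))}.ncard) ∧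
    (∃ K : ℕ, ∀ (α : Type) [Fintype α] [PartialOrder α],
      (∃ x : α, K ≤ {y : α | ¬ x ≤ y ∧ ¬ y ≤ x}.ncard) →
      ∃ a b : α, ¬ a ≤ b ∧ ¬ b ≤ a ∧
        ∀ u v : α, ((u = a ∧ v = b) ∨ (u = b ∧ v = a)) →
          ∃ c d : α, c ≠ d ∧
            ∀ w z : α, ((w = c ∧ z = d) ∨ (w = d ∧ z = c)) →
              {f : α ≃ Fin (Fintype.card α) |
                  StrictMono (f : α → Fin (Fintype.card α)) ∧ f u < f v}.ncard
                + {f : α ≃ Fin (Fintype.card α) |
                  StrictMono (f : α → Fin (Fintype.card α)) ∧ f u < f v ∧ f w < f z}.ncard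
                ≤ {f : α ≃ Fin (Fintype.card α) |
                  StrictMono (f : α → Fin (Fintype.card α))}.ncard) := by
  constructor
  · obtain ⟨δ, hδ, h⟩ := Pool.Agent.Y491.GP.near
    refine ⟨δ, hδ, fun α _ _ a b h1 h2 => ?_⟩
    have hN : (0 : ℝ) < (Pool.Agent.Y491.BF.LE α).card := Pool.Agent.Y491.BF.Npos
    rw [Pool.Agent.Y491.GP.LE_ncard] at h1 h2
    obtain ⟨h3, h4⟩ := h α a b
      (by rw [Pool.Agent.Y491.GP.prob_cnt, le_div_iff₀ hN]; exact h1)
      (by rw [Pool.Agent.Y491.GP.prob_cnt, le_div_iff₀ hN]; exact h2)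
    exact ⟨h3.1, h3.2, h4⟩
  · obtain ⟨K, h⟩ := Pool.Agent.Y491.GP.thick
    refine ⟨K, fun α _ _ hx => ?_⟩
    obtain ⟨a, b, h3, h4⟩ := h α hx
    exact ⟨a, b, h3.1, h3.2, h4⟩

end Pool.Agent.Results.MP_480c30_co.ThickPosets
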